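import Mathlib
import Pool.Agent.X173.GFC

/-!
# Geometric-progression-free sets: maximal density is smaller than maximal upper density

`α < ᾱ`, where `ᾱ` is the supremum of the upper densities of the sets of positive integers without
three-term geometric progressions (rational ratio `> 1`) and `α` is the supremum of the densities of
those having an asymptotic density.

Idea: a subset of `{1,…,12}` with no progression has at most `10` elements, and at most `9` if it
contains `1, 2, 3`.  So for every `b` free of small primes with `N/13 < b ≤ N/12` a set with no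
progression can be improved either inside `b·{1,…,12}` at level `N` or inside `b·{1,2,3}` at level
`N/4`; the new progressions have ratios with large primes and are destroyed by deleting the multiples
of `p²` for large primes `p`, which costs less (`1/P` against `1/√P`).
-/

open Filter Topology

namespace Pool.Agent.Results.MP_9f86c8_nt.DensityGap

/-- `A` is a set of positive integers containing no progression `(a, a k, a k²)` with rational
ratio `k > 1`. -/
def GPFree (A : Set ℕ) : Prop :=
  0 ∉ A ∧ ¬ ∃ a b c : ℕ, a ∈ A ∧ b ∈ A ∧ c ∈ A ∧ ∃ k : ℚ, 1 < k ∧ (b : ℚ) = a * k ∧ (c : ℚ) = a * k ^ 2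

/-- `|A ∩ [1,N]| / N`. -/
noncomputable def ratio (A : Set ℕ) (N : ℕ) : ℝ := ((A ∩ Set.Icc 1 N).ncard : ℝ) / N

/-- Supremum of the asymptotic densities of GP-free sets having one. -/
noncomputable def alpha : ℝ :=
  sSup {d : ℝ | ∃ A : Set ℕ, GPFree A ∧ Tendsto (ratio A) atTop (𝓝 d)}

/-- Supremum of the upper densities of GP-free sets. -/
noncomputable def alphaBar : ℝ :=
  sSup {d : ℝ | ∃ A : Set ℕ, GPFree A ∧ d = limsup (ratio A) atTop}

theorem gpf_of_free {A : Set ℕ} (h : GPFree A) : Pool.Agent.X173.GF.GPF A := by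
  intro a ha b hb c hc hab hbc he
  apply h.2
  have ha0 : 0 < a := Nat.pos_of_ne_zero fun h0 => h.1 (h0 ▸ ha)
  have haq : (0:ℚ) < a := by exact_mod_cast ha0
  refine ⟨a, b, c, ha, hb, hc, (b : ℚ) / a, ?_, ?_, ?_⟩
  · rw [one_lt_div haq]; exact_mod_cast hab
  · field_simp
  · have h1 : (a : ℚ) * c = (b : ℚ) ^ 2 := by exact_mod_cast he
    field_simp
    linarith

theorem free_of_gpf {A : Set ℕ} (h0 : 0 ∉ A) (h : Pool.Agent.X173.GF.GPF A) : GPFree A := by
  refine ⟨h0, ?_⟩
  rintro ⟨a, b, c, ha, hb, hc, k, hk, hbk, hck⟩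
  have ha0 : 0 < a := Nat.pos_of_ne_zero fun h1 => h0 (h1 ▸ ha)
  have haq : (0:ℚ) < a := by exact_mod_cast ha0
  refine h a ha b hb c hc ?_ ?_ ?_
  · have : (a : ℚ) < b := by rw [hbk]; nlinarith
    exact_mod_cast this
  · have : (b : ℚ) < c := by
      rw [hbk, hck]
      have : 0 < (a : ℚ) * k := by positivity
      nlinarith
    exact_mod_cast this
  · have : (a : ℚ) * c = (b : ℚ) ^ 2 := by rw [hbk, hck]; ring
    exact_mod_cast this

theorem ratio_nonneg (A : Set ℕ) (N : ℕ) : 0 ≤ ratio A N := by unfold ratio; positivity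

theorem ratio_le_one (A : Set ℕ) (N : ℕ) : ratio A N ≤ 1 := Pool.Agent.X173.GF.ratio_le_one A N

theorem result : alpha < alphaBar := by
  obtain ⟨κ, hκ, hmain⟩ := Pool.Agent.X173.GF.main
  have hbdd : BddAbove {d : ℝ | ∃ A : Set ℕ, GPFree A ∧ d = limsup (ratio A) atTop} := by
    refine ⟨1, ?_⟩
    rintro d ⟨A, -, rfl⟩
    refine limsup_le_of_le ?_ (Eventually.of_forall fun N => ratio_le_one A N)
    exact isCoboundedUnder_le_of_le atTop (fun N => ratio_nonneg A N)
  have hkey : alpha ≤ alphaBar - κ := by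
    unfold alpha
    apply csSup_le
    · refine ⟨0, ∅, ⟨by simp, by simp⟩, ?_⟩
      have : ratio ∅ = fun _ => 0 := by funext N; simp [ratio]
      rw [this]
      exact tendsto_const_nhds
    · rintro d ⟨A, hA, hd⟩
      have h1 : ∀ L : ℕ, 2 ≤ L → d + κ - 1 / L ≤ alphaBar := by
        intro L hL
        obtain ⟨S, hS0, hS, hle⟩ := hmain A d (gpf_of_free hA) hd L hL
        exact hle.trans (le_csSup hbdd ⟨S, free_of_gpf hS0 hS, rfl⟩)
      have h2 : Tendsto (fun L : ℕ => d + κ - 1 / (L:ℝ)) atTop (𝓝 (d + κ - 0)) :=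
        tendsto_const_nhds.sub (tendsto_const_div_atTop_nhds_zero_nat 1)
      have h3 := le_of_tendsto h2 (by
        filter_upwards [eventually_ge_atTop 2] with L hL using h1 L hL)
      linarith
  linarith

end Pool.Agent.Results.MP_9f86c8_nt.DensityGap
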